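import Pool.Agent.F5S.Stmts

/-!
MP_f5cbfa_nt, squad F5S, row PTW: for one form `A`, the limit of `NT T_k / T_k ^ 2` along
`T_k = (1 + η) ^ k` from the limits of the weighted sums and of the number of bad triples.
-/

set_option autoImplicit false

open MeasureTheory Filter Topology

namespace Pool.Agent.F5S.H9

open Pool.Agent.BTL Pool.Agent.F5S

theorem cQnn (A : ℝ × ℝ × ℝ) : 0 ≤ cQ A := by
  unfold cQ
  exact integral_nonneg (fun _ => sq_nonneg _)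

theorem upsum {G : Finset (ℤ × ℤ)} {F : ℤ × ℤ → ℝ} {e q ε : ℝ} (he : 0 < e)
    (h : ∀ g ∈ G, F g ≤ e ^ 3 * q + ε) :
    e⁻¹ * ∑ g ∈ G, F g ≤ e ^ 2 * (G.card : ℝ) * q + e⁻¹ * ((G.card : ℝ) * ε) := by
  have h1 : ∑ g ∈ G, F g ≤ (G.card : ℝ) * (e ^ 3 * q + ε) := by
    have := Finset.sum_le_card_nsmul G F (e ^ 3 * q + ε) h
    rwa [nsmul_eq_mul] at this
  have h2 : e⁻¹ * ∑ g ∈ G, F g ≤ e⁻¹ * ((G.card : ℝ) * (e ^ 3 * q + ε)) :=
    mul_le_mul_of_nonneg_left h1 (inv_nonneg.2 he.le)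
  have h3 : e⁻¹ * ((G.card : ℝ) * (e ^ 3 * q + ε)) =
      e ^ 2 * (G.card : ℝ) * q + e⁻¹ * ((G.card : ℝ) * ε) := by
    field_simp
  linarith

theorem losum {G : Finset (ℤ × ℤ)} {F : ℤ × ℤ → ℝ} {e q ε : ℝ} (he : 0 < e)
    (h : ∀ g ∈ G, e ^ 3 * q - ε ≤ F g) :
    e ^ 2 * (G.card : ℝ) * q - e⁻¹ * ((G.card : ℝ) * ε) ≤ e⁻¹ * ∑ g ∈ G, F g := by
  have h1 : (G.card : ℝ) * (e ^ 3 * q - ε) ≤ ∑ g ∈ G, F g := by
    have := Finset.card_nsmul_le_sum G F (e ^ 3 * q - ε) h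
    rwa [nsmul_eq_mul] at this
  have h2 : e⁻¹ * ((G.card : ℝ) * (e ^ 3 * q - ε)) ≤ e⁻¹ * ∑ g ∈ G, F g :=
    mul_le_mul_of_nonneg_left h1 (inv_nonneg.2 he.le)
  have h3 : e⁻¹ * ((G.card : ℝ) * (e ^ 3 * q - ε)) =
      e ^ 2 * (G.card : ℝ) * q - e⁻¹ * ((G.card : ℝ) * ε) := by
    field_simp
  linarith

theorem pull (G : Finset (ℤ × ℤ)) (F : ℤ × ℤ → ℝ) (e t : ℝ) :
    e⁻¹ * ∑ g ∈ G, F g / t = (e⁻¹ * ∑ g ∈ G, F g) / t := by
  rw [← Finset.sum_div, mul_div_assoc]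

theorem WP_eq {lam del1 T : ℝ} (h : big lam del1 T) :
    WP lam del1 T = Wp T (T ^ lam) (T ^ (del1 / 2)) := by
  funext c
  unfold WP
  rw [if_pos h]

theorem WM_eq {lam del1 T : ℝ} (h : big lam del1 T) :
    WM lam del1 T = Wm T (T ^ lam) (T ^ (del1 / 2)) := by
  funext c
  unfold WM
  rw [if_pos h]

/-- the choice of the small parameter: `e⁻¹ (n ε₁) ≤ ε / 8` -/
theorem small {e ε : ℝ} (he : 0 < e) (hε : 0 < ε) (n : ℕ) :
    0 < e * ε / (16 * ((n : ℝ) + 1)) ∧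
      e⁻¹ * ((n : ℝ) * (2 * (e * ε / (16 * ((n : ℝ) + 1))))) ≤ ε / 8 := by
  have hn : (0 : ℝ) < (n : ℝ) + 1 := by positivity
  refine ⟨by positivity, ?_⟩
  have h1 : e⁻¹ * ((n : ℝ) * (2 * (e * ε / (16 * ((n : ℝ) + 1))))) =
      ε / 8 * ((n : ℝ) / ((n : ℝ) + 1)) := by
    field_simp
    ring
  rw [h1]
  have h2 : (n : ℝ) / ((n : ℝ) + 1) ≤ 1 := by
    rw [div_le_one hn]
    linarith
  have h3 : (0 : ℝ) ≤ ε / 8 := by positivity
  nlinarith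

theorem ptw (win : WINStmt) (ups : UPSStmt) (los : LOSStmt) (iwl : IWLStmt) : PTWStmt := by
  intro M hM A hA lam del1 η hlam hdel1 hsum hη a b c d hab hcd hP hW hN
  have hq : 0 ≤ cQ A := cQnn A
  have hT : Tendsto (fun k : ℕ => (1 + η) ^ k) atTop atTop :=
    tendsto_pow_atTop_atTop_of_one_lt (by linarith)
  have hT1 : ∀ k : ℕ, (1 : ℝ) ≤ (1 + η) ^ k := fun k => one_le_pow₀ (by linarith)
  obtain ⟨C, hC, hG⟩ := win a b c d hab hcd
  rw [Metric.tendsto_nhds]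
  intro ε hε
  have hCq : 0 ≤ C * cQ A := mul_nonneg (by linarith) hq
  obtain ⟨j, hj⟩ := exists_nat_one_div_lt (K := ℝ)
    (ε := ε / (4 * (C * cQ A + 1))) (by positivity)
  have he : (0 : ℝ) < 1 / ((j : ℝ) + 1) := by positivity
  have he1 : 1 / ((j : ℝ) + 1) ≤ 1 := by
    rw [div_le_one (by positivity)]
    have : (0 : ℝ) ≤ (j : ℝ) := Nat.cast_nonneg j
    linarith
  have hP' := hP j
  have hW' := hW j
  generalize 1 / ((j : ℝ) + 1) = e at hj he he1 hP' hW'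
  have hCe : C * e * cQ A ≤ ε / 4 := by
    have h1 : C * cQ A * e ≤ C * cQ A * (ε / (4 * (C * cQ A + 1))) :=
      mul_le_mul_of_nonneg_left hj.le hCq
    have h2 : C * cQ A * (ε / (4 * (C * cQ A + 1))) =
        ε / 4 * (C * cQ A / (C * cQ A + 1)) := by
      field_simp
    have h3 : C * cQ A / (C * cQ A + 1) ≤ 1 := by
      rw [div_le_one (by positivity)]
      linarith
    have h4 : (0 : ℝ) ≤ ε / 4 := by positivity
    nlinarith
  obtain ⟨Gm, Gp, hm, hp, cm, cp⟩ := hG e he he1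
  -- the upper bound
  obtain ⟨hp0, hp1⟩ := small he hε Gp.card
  have upE : ∀ g ∈ Gp, ∀ᶠ k : ℕ in atTop,
      big lam del1 ((1 + η) ^ k) ∧
      SW ((1 + η) ^ k) (((1 + η) ^ k) ^ lam) e
        (Wp ((1 + η) ^ k) (((1 + η) ^ k) ^ lam) (((1 + η) ^ k) ^ (del1 / 2))) (sc e g) A /
        ((1 + η) ^ k) ^ 2 ≤ e ^ 3 * cQ A + 2 * (e * ε / (16 * ((Gp.card : ℝ) + 1))) := by
    intro g _
    have h1 := (hP' g).eventually_lt_const hp0
    have h2 := hT.eventually (iwl M hM A hA lam del1 hlam hdel1 hsum e (sc e g) he _ hp0)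
    filter_upwards [h1, h2] with k h1 h2
    obtain ⟨hb, hu, _⟩ := h2
    rw [WP_eq hb, sub_div] at h1
    exact ⟨hb, by linarith⟩
  have upA : ∀ᶠ k : ℕ in atTop, ∀ g ∈ Gp,
      big lam del1 ((1 + η) ^ k) ∧
      SW ((1 + η) ^ k) (((1 + η) ^ k) ^ lam) e
        (Wp ((1 + η) ^ k) (((1 + η) ^ k) ^ lam) (((1 + η) ^ k) ^ (del1 / 2))) (sc e g) A /
        ((1 + η) ^ k) ^ 2 ≤ e ^ 3 * cQ A + 2 * (e * ε / (16 * ((Gp.card : ℝ) + 1))) := by
    rw [Filter.eventually_all_finset]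
    exact upE
  obtain ⟨hm0, hm1⟩ := small he hε Gm.card
  have loE : ∀ g ∈ Gm, ∀ᶠ k : ℕ in atTop,
      e ^ 3 * cQ A - 2 * (e * ε / (16 * ((Gm.card : ℝ) + 1))) ≤
      SW ((1 + η) ^ k) (((1 + η) ^ k) ^ lam) e
        (Wm ((1 + η) ^ k) (((1 + η) ^ k) ^ lam) (((1 + η) ^ k) ^ (del1 / 2))) (sc e g) A /
        ((1 + η) ^ k) ^ 2 := by
    intro g _
    have h1 := (hW' g).eventually_const_lt (neg_lt_zero.2 hm0)
    have h2 := hT.eventually (iwl M hM A hA lam del1 hlam hdel1 hsum e (sc e g) he _ hm0)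
    filter_upwards [h1, h2] with k h1 h2
    obtain ⟨hb, _, hu⟩ := h2
    rw [WM_eq hb, sub_div] at h1
    linarith
  have loA : ∀ᶠ k : ℕ in atTop, ∀ g ∈ Gm,
      e ^ 3 * cQ A - 2 * (e * ε / (16 * ((Gm.card : ℝ) + 1))) ≤
      SW ((1 + η) ^ k) (((1 + η) ^ k) ^ lam) e
        (Wm ((1 + η) ^ k) (((1 + η) ^ k) ^ lam) (((1 + η) ^ k) ^ (del1 / 2))) (sc e g) A /
        ((1 + η) ^ k) ^ 2 := by
    rw [Filter.eventually_all_finset]
    exact loE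
  have hbig := hT.eventually (iwl M hM A hA lam del1 hlam hdel1 hsum e (sc e (0, 0)) he 1 one_pos)
  have hNB := hN.eventually_lt_const (show (0 : ℝ) < ε / 8 by positivity)
  filter_upwards [upA, loA, hbig, hNB] with k hu hl hb hnb
  obtain ⟨hb, -, -⟩ := hb
  have hTk : (1 : ℝ) ≤ (1 + η) ^ k := hT1 k
  have hp : (0 : ℝ) < ((1 + η) ^ k) ^ 2 := by positivity
  obtain ⟨hb1, hb2⟩ := hb
  have hL : (0 : ℝ) < ((1 + η) ^ k) ^ lam := Real.rpow_pos_of_pos (by linarith) _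
  have U := ups ((1 + η) ^ k) (((1 + η) ^ k) ^ lam) (((1 + η) ^ k) ^ (del1 / 2)) hTk hL hb2 hb1
    e he a b c d Gp (by assumption) A
  have Lo := los ((1 + η) ^ k) (((1 + η) ^ k) ^ lam) (((1 + η) ^ k) ^ (del1 / 2)) hTk hL hb2 hb1
    e he a b c d Gm hm A
  have U1 := upsum (F := fun g => SW ((1 + η) ^ k) (((1 + η) ^ k) ^ lam) e
        (Wp ((1 + η) ^ k) (((1 + η) ^ k) ^ lam) (((1 + η) ^ k) ^ (del1 / 2))) (sc e g) A /
        ((1 + η) ^ k) ^ 2) he (fun g hg => (hu g hg).2)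
  have L1 := losum (F := fun g => SW ((1 + η) ^ k) (((1 + η) ^ k) ^ lam) e
        (Wm ((1 + η) ^ k) (((1 + η) ^ k) ^ lam) (((1 + η) ^ k) ^ (del1 / 2))) (sc e g) A /
        ((1 + η) ^ k) ^ 2) he hl
  rw [pull] at U1 L1
  have U2 := div_le_div_of_nonneg_right U hp.le
  have L2 := div_le_div_of_nonneg_right Lo hp.le
  rw [add_div] at U2
  have cp' := mul_le_mul_of_nonneg_right cp hq
  have cm' := mul_le_mul_of_nonneg_right cm hq
  rw [Real.dist_eq, abs_lt]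
  constructor
  · nlinarith
  · nlinarith

end Pool.Agent.F5S.H9
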